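import Pool.Agent.Helper68.QC.St6

/-!
# PART M of project QD, module SPH: change of normalisation
-/

open MeasureTheory Set Filter Topology Complex
open scoped ContDiff ComplexConjugate ENNReal

namespace Pool.Agent.Helper74.QCM

open Pool.Agent.Helper68.QC

/-- the inverse coordinate -/
private noncomputable def sc (a b η : ℂ) : ℂ := (b * η - a) / (η - 1)

private theorem sc_eq {a b η : ℂ} (h : η ≠ 1) : sc a b η = b + (b - a) * (η - 1)⁻¹ := by
  have h1 : η - 1 ≠ 0 := sub_ne_zero.2 h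
  unfold sc
  field_simp
  ring

private theorem sc_ne {a b η : ℂ} (hab : a ≠ b) (h : η ≠ 1) : sc a b η ≠ b := by
  have h1 : η - 1 ≠ 0 := sub_ne_zero.2 h
  rw [sc_eq h]
  intro h2
  have h3 : (b - a) * (η - 1)⁻¹ = 0 := by linear_combination h2
  rcases mul_eq_zero.1 h3 with h4 | h4
  · exact hab (sub_eq_zero.1 h4).symm
  · exact inv_ne_zero h1 h4

private theorem crd_ne {a b x : ℂ} (hab : a ≠ b) (h : x ≠ b) : crd a b x ≠ 1 := by
  have h1 : x - b ≠ 0 := sub_ne_zero.2 h
  unfold crd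
  intro h2
  rw [div_eq_one_iff_eq h1] at h2
  exact hab (by linear_combination -h2)

private theorem crd_sc {a b η : ℂ} (hab : a ≠ b) (h : η ≠ 1) : crd a b (sc a b η) = η := by
  unfold crd
  rw [div_eq_iff (sub_ne_zero.2 (sc_ne hab h)), sc_eq h]
  have h1 : η - 1 ≠ 0 := sub_ne_zero.2 h
  field_simp
  ring

private theorem sc_crd {a b x : ℂ} (hab : a ≠ b) (h : x ≠ b) : sc a b (crd a b x) = x := by
  have h1 : x - b ≠ 0 := sub_ne_zero.2 h
  have h2 := crd_ne hab h
  unfold sc
  rw [div_eq_iff (sub_ne_zero.2 h2)]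
  unfold crd
  field_simp
  ring

open Classical in
private noncomputable def vf (w : ℂ → ℂ) (a b η : ℂ) : ℂ :=
  if η = 1 then 1 else crd (w a) (w b) (w (sc a b η))

private theorem vf_one (w : ℂ → ℂ) (a b : ℂ) : vf w a b 1 = 1 := by
  unfold vf
  rw [if_pos rfl]

private theorem vf_ne (w : ℂ → ℂ) (a b : ℂ) {η : ℂ} (h : η ≠ 1) :
    vf w a b η = crd (w a) (w b) (w (sc a b η)) := by
  unfold vf
  rw [if_neg h]

private theorem vf_inv (w w' : ℂ → ℂ) (hw : ∀ z, w' (w z) = z) {a b : ℂ} (hab : a ≠ b) (η : ℂ) :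
    vf w' (w a) (w b) (vf w a b η) = η := by
  have inj : ∀ x y, w x = w y → x = y := fun x y h => by rw [← hw x, ← hw y, h]
  by_cases h : η = 1
  · rw [h, vf_one, vf_one]
  · have h1 : sc a b η ≠ b := sc_ne hab h
    have h2 : w (sc a b η) ≠ w b := fun h => h1 (inj _ _ h)
    have h4 : w a ≠ w b := fun h => hab (inj _ _ h)
    have h3 : crd (w a) (w b) (w (sc a b η)) ≠ 1 := crd_ne h4 h2
    rw [vf_ne w a b h, vf_ne w' _ _ h3, sc_crd h4 h2, hw, hw, hw]
    exact crd_sc hab h

private theorem tend_sc {a b : ℂ} (hab : a ≠ b) :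
    Tendsto (sc a b) (𝓝[≠] 1) (Bornology.cobounded ℂ) := by
  have t1 : Tendsto (fun η : ℂ => η - 1) (𝓝[≠] 1) (𝓝[≠] 0) := by
    refine tendsto_nhdsWithin_iff.2 ⟨?_, ?_⟩
    · have h : Tendsto (fun η : ℂ => η - 1) (𝓝 1) (𝓝 (1 - 1)) :=
        (continuous_id.sub continuous_const).tendsto 1
      rw [sub_self] at h
      exact h.mono_left nhdsWithin_le_nhds
    · filter_upwards [self_mem_nhdsWithin] with η hη using sub_ne_zero.2 hη
  have t2 : Tendsto (fun η : ℂ => (η - 1)⁻¹) (𝓝[≠] 1) (Bornology.cobounded ℂ) :=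
    tendsto_inv₀_nhdsNE_zero.comp t1
  have t3 : Tendsto (fun η : ℂ => ‖(η - 1)⁻¹‖) (𝓝[≠] 1) atTop :=
    tendsto_norm_atTop_iff_cobounded.2 t2
  have hpos : 0 < ‖b - a‖ := norm_pos_iff.2 (sub_ne_zero.2 hab.symm)
  have t4 : Tendsto (fun η : ℂ => ‖b - a‖ * ‖(η - 1)⁻¹‖ + -‖b‖) (𝓝[≠] 1) atTop :=
    tendsto_atTop_add_const_right _ _ (t3.const_mul_atTop hpos)
  rw [← tendsto_norm_atTop_iff_cobounded]
  refine tendsto_atTop_mono' _ ?_ t4
  filter_upwards [self_mem_nhdsWithin] with η hη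
  rw [sc_eq hη, ← norm_mul]
  have h := norm_sub_le (b + (b - a) * (η - 1)⁻¹) b
  rw [add_sub_cancel_left] at h
  linarith

private theorem tend_crd (a b : ℂ) : Tendsto (crd a b) (Bornology.cobounded ℂ) (𝓝 1) := by
  have t1 : Tendsto (fun x : ℂ => ‖x‖ + -‖b‖) (Bornology.cobounded ℂ) atTop :=
    tendsto_atTop_add_const_right _ _ tendsto_norm_cobounded_atTop
  have t2 : Tendsto (fun x : ℂ => x - b) (Bornology.cobounded ℂ) (Bornology.cobounded ℂ) := by
    rw [← tendsto_norm_atTop_iff_cobounded]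
    refine tendsto_atTop_mono (fun x => ?_) t1
    have h := norm_sub_norm_le x b
    linarith
  have t3 : Tendsto (fun x : ℂ => (x - b)⁻¹) (Bornology.cobounded ℂ) (𝓝 0) :=
    tendsto_inv₀_cobounded.comp t2
  have t4 : Tendsto (fun x : ℂ => 1 + (b - a) * (x - b)⁻¹) (Bornology.cobounded ℂ)
      (𝓝 (1 + (b - a) * 0)) := tendsto_const_nhds.add (t3.const_mul _)
  rw [mul_zero, add_zero] at t4
  refine t4.congr' ?_
  have h1 : ∀ᶠ x : ℂ in Bornology.cobounded ℂ, 0 < ‖x‖ + -‖b‖ := t1.eventually_gt_atTop 0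
  filter_upwards [h1] with x hx
  have hxb : x ≠ b := by
    rintro rfl
    linarith
  have h2 : x - b ≠ 0 := sub_ne_zero.2 hxb
  unfold crd
  field_simp
  ring

private theorem vf_cont (w : ℂ ≃ₜ ℂ) {a b : ℂ} (hab : a ≠ b) : Continuous (vf w a b) := by
  rw [continuous_iff_continuousAt]
  intro η
  by_cases h : η = 1
  · subst h
    rw [continuousAt_iff_punctured_nhds, vf_one]
    have e : (fun η => crd (w a) (w b) (w (sc a b η))) =ᶠ[𝓝[≠] (1 : ℂ)] vf w a b := by
      filter_upwards [self_mem_nhdsWithin] with η hη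
      exact (vf_ne w a b hη).symm
    refine Tendsto.congr' e ?_
    have t4 : Tendsto w (Bornology.cobounded ℂ) (Bornology.cobounded ℂ) := by
      rw [Metric.cobounded_eq_cocompact]
      exact w.isClosedEmbedding.tendsto_cocompact
    exact (tend_crd (w a) (w b)).comp (t4.comp (tend_sc hab))
  · have e : vf w a b =ᶠ[𝓝 η] fun η => crd (w a) (w b) (w (sc a b η)) := by
      filter_upwards [isOpen_ne.mem_nhds h] with η' h'
      exact vf_ne w a b h'
    refine ContinuousAt.congr ?_ e.symm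
    have c1 : ContinuousAt (sc a b) η :=
      ContinuousAt.div (by fun_prop) (by fun_prop) (sub_ne_zero.2 h)
    have c2 : ContinuousAt (fun η => w (sc a b η)) η := w.continuous.continuousAt.comp c1
    have h2 : w (sc a b η) - w b ≠ 0 :=
      sub_ne_zero.2 fun h3 => sc_ne hab h (w.injective h3)
    exact (c2.sub continuousAt_const).div (c2.sub continuousAt_const) h2

private noncomputable def vh (w : ℂ ≃ₜ ℂ) {a b : ℂ} (hab : a ≠ b) : ℂ ≃ₜ ℂ where
  toFun := vf w a b
  invFun := vf w.symm (w a) (w b)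
  left_inv := vf_inv w w.symm w.symm_apply_apply hab
  right_inv := by
    intro ζ
    have h := vf_inv w.symm w w.apply_symm_apply (a := w a) (b := w b)
      (fun h => hab (w.injective h)) ζ
    rwa [w.symm_apply_apply, w.symm_apply_apply] at h
  continuous_toFun := vf_cont w hab
  continuous_invFun := vf_cont w.symm fun h => hab (w.injective h)

private theorem vh_apply (w : ℂ ≃ₜ ℂ) {a b : ℂ} (hab : a ≠ b) (η : ℂ) :
    vh w hab η = vf w a b η := rfl

private theorem sol_congr {ν ν' f f' : ℂ → ℂ} {U : Set ℂ} (hU : MeasurableSet U)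
    (hν : ∀ z ∈ U, ν z = ν' z) (hf : ∀ z ∈ U, f z = f' z) (h : Sol ν U f) : Sol ν' U f' := by
  obtain ⟨a, b, hw, hab⟩ := h
  refine ⟨a, b, ⟨hw.cont.congr fun z hz => (hf z hz).symm, hw.l2a, hw.l2b, ?_, ?_⟩, ?_⟩
  · intro φ hφ
    rw [← hw.dz φ hφ]
    refine integral_congr_ae (Eventually.of_forall fun z => ?_)
    by_cases hz : z ∈ U
    · simp only [hf z hz]
    · have h0 : dz φ z = 0 := dz_eq_zero fun h => hz (hφ.sub h)
      simp only [h0, mul_zero]
  · intro φ hφ
    rw [← hw.dzb φ hφ]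
    refine integral_congr_ae (Eventually.of_forall fun z => ?_)
    by_cases hz : z ∈ U
    · simp only [hf z hz]
    · have h0 : dzb φ z = 0 := dzb_eq_zero fun h => hz (hφ.sub h)
      simp only [h0, mul_zero]
  · filter_upwards [hab, ae_restrict_mem hU] with z hz hzU
    rw [hz, hν z hzU]

private theorem bel_muT {k : ℝ} {μ : ℂ → ℂ} (h : Bel k μ) (a b : ℂ) : Bel k (muT a b μ) := by
  have hk : 0 ≤ k := (norm_nonneg (μ 0)).trans (h.le 0)
  refine ⟨?_, ?_⟩
  · unfold muT
    have m1 : Measurable fun η : ℂ => (b * η - a) / (η - 1) := by fun_prop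
    have m2 : Measurable fun η : ℂ => μ ((b * η - a) / (η - 1)) := h.meas.comp m1
    have m3 : Measurable fun η : ℂ => conj (η - 1) :=
      (Complex.continuous_conj.comp (continuous_id.sub continuous_const)).measurable
    have m4 : Measurable fun η : ℂ => (η - 1) ^ 2 := by fun_prop
    exact m2.mul ((m4.div (m3.pow_const 2)).const_mul _)
  · intro η
    unfold muT
    rw [norm_mul, norm_mul]
    have h1 : ‖conj (a - b) / (a - b)‖ ≤ 1 := by
      rw [norm_div, RCLike.norm_conj]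
      exact div_self_le_one _
    have h2 : ‖(η - 1) ^ 2 / conj (η - 1) ^ 2‖ ≤ 1 := by
      rw [norm_div, norm_pow, norm_pow, RCLike.norm_conj]
      exact div_self_le_one _
    have h3 : ‖conj (a - b) / (a - b)‖ * ‖(η - 1) ^ 2 / conj (η - 1) ^ 2‖ ≤ 1 * 1 :=
      mul_le_mul h1 h2 (norm_nonneg _) zero_le_one
    rw [one_mul] at h3
    calc _ ≤ k * 1 := mul_le_mul (h.le _) h3 (by positivity) hk
      _ = k := mul_one k

private theorem deriv_sc {a b η : ℂ} (h : η ≠ 1) :
    HasDerivAt (sc a b) ((a - b) / (η - 1) ^ 2) η := by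
  have h1 : η - 1 ≠ 0 := sub_ne_zero.2 h
  have d1 : HasDerivAt (fun x : ℂ => b * x - a) b η := by
    simpa using ((hasDerivAt_id η).const_mul b).sub_const a
  have d2 : HasDerivAt (fun x : ℂ => x - 1) 1 η := (hasDerivAt_id η).sub_const 1
  have d3 := d1.div d2 h1
  refine d3.congr_deriv ?_
  field_simp
  ring

/-- SPH -/
theorem pSPH : Pool.Agent.Helper68.QC.StSPH := by
  intro hEX hUNI hPRE hPOS k hk μ hμ a b hab
  refine ⟨bel_muT hμ a b, ?_⟩
  obtain ⟨w, hw⟩ : ∃ w : ℂ ≃ₜ ℂ, w = nq μ := ⟨_, rfl⟩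
  have hsol : Sol μ univ w := by rw [hw]; exact (hEX k hk μ hμ).sol
  rw [← hw]
  have hwab : w a ≠ w b := fun h => hab (w.injective h)
  have hV : IsOpen ({1}ᶜ : Set ℂ) := isOpen_compl_singleton
  have hsc : ∀ z ∈ ({1}ᶜ : Set ℂ), HasDerivAt (sc a b) ((a - b) / (z - 1) ^ 2) z :=
    fun z hz => deriv_sc hz
  have s1 := hPRE μ univ {1}ᶜ w (sc a b) isOpen_univ hV
    (fun z hz => (hsc z hz).differentiableAt.differentiableWithinAt)
    (by
      intro x hx y hy hxy
      rw [← crd_sc hab hx, ← crd_sc hab hy, hxy])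
    (fun _ _ => mem_univ _)
    (by
      intro z hz
      rw [(hsc z hz).deriv]
      exact div_ne_zero (sub_ne_zero.2 hab) (pow_ne_zero 2 (sub_ne_zero.2 hz)))
    hsol
  have s2 := hPOS _ {1}ᶜ {w b}ᶜ _ (crd (w a) (w b)) hV isOpen_compl_singleton
    (by
      intro x hx
      refine DifferentiableAt.differentiableWithinAt ?_
      exact (differentiableAt_id.sub_const _).div (differentiableAt_id.sub_const _)
        (sub_ne_zero.2 hx))
    (by
      intro z hz h
      exact sc_ne hab hz (w.injective h))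
    s1
  have s3 : Sol (muT a b μ) {1}ᶜ (vh w hab) := by
    refine sol_congr hV.measurableSet ?_ ?_ s2
    · intro z hz
      have h1 : z - 1 ≠ 0 := sub_ne_zero.2 hz
      have h2 : conj (z - 1) ≠ 0 := (map_ne_zero _).2 h1
      have h3 : a - b ≠ 0 := sub_ne_zero.2 hab
      have h4 : conj (a - b) ≠ 0 := (map_ne_zero _).2 h3
      rw [(hsc z hz).deriv]
      unfold muT
      change μ ((b * z - a) / (z - 1)) * _ = μ ((b * z - a) / (z - 1)) * _
      congr 1
      rw [map_div₀, map_pow]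
      field_simp
    · intro z hz
      rw [vh_apply, vf_ne w a b hz]
  have hv0 : vh w hab 0 = 0 := by
    rw [vh_apply, vf_ne w a b zero_ne_one]
    have h1 : sc a b 0 = a := by
      unfold sc
      rw [mul_zero, zero_sub, zero_sub, div_neg, div_one, neg_neg]
    rw [h1]
    unfold crd
    rw [sub_self, zero_div]
  have hv1 : vh w hab 1 = 1 := by rw [vh_apply, vf_one]
  have hv := hUNI k hk (muT a b μ) (bel_muT hμ a b) (vh w hab) hv0 hv1 {1}
    (Set.finite_singleton 1) s3
  intro ξ hξ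
  rw [← hv, vh_apply, vf_ne w a b (crd_ne hab hξ), sc_crd hab hξ]
  rfl

end Pool.Agent.Helper74.QCM
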